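import Mathlib

/-!
Two-coin pattern race.  `true` is H and `false` is T.  A toss sequence `X : ℕ → Bool` has first toss
`X 0`.
-/

open MeasureTheory ProbabilityTheory

namespace Pool.Agent.MP_cbbafe_pr

/-- Law of an i.i.d. sequence of tosses with `Pr(H) = p` (for `p` in `[0,1]`). -/
noncomputable def tosses (p : ℝ) : Measure (ℕ → Bool) :=
  Measure.infinitePi fun _ => bernoulliMeasure true false (Set.projIcc 0 1 zero_le_one p)

/-- The least `n` such that the word of the first `n` tosses ends with the pattern `T`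
(`⊤` if there is none). -/
noncomputable def waitingTime (T : List Bool) (X : ℕ → Bool) : ℕ∞ :=
  ⨅ (n : ℕ) (_ : T <:+ List.ofFn fun i : Fin n => X i), (n : ℕ∞)

/-- `W(p) = Pr(τ₁ < τ₂) + Pr(τ₁ = τ₂) / 2` for two independent toss sequences. -/
noncomputable def winProb (T₁ T₂ : List Bool) (p : ℝ) : ℝ :=
  ((tosses p).prod (tosses p)).real {ω | waitingTime T₁ ω.1 < waitingTime T₂ ω.2} +
    (1 / 2) * ((tosses p).prod (tosses p)).real {ω | waitingTime T₁ ω.1 = waitingTime T₂ ω.2}

end Pool.Agent.MP_cbbafe_pr
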